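import Pool.Agent.W845.HC.Base

set_option autoImplicit false
open scoped Classical
open scoped BigOperators

namespace Pool.Agent.W653.HC

open Pool.Agent.W845.HC SimpleGraph

variable {V : Type}

/-- reachability after adding one edge -/
theorem reach_sup_edge {H : SimpleGraph V} {u v a b : V} (h : (H ⊔ edge u v).Reachable a b) :
    H.Reachable a b ∨ (H.Reachable a u ∧ H.Reachable v b) ∨
      (H.Reachable a v ∧ H.Reachable u b) := by
  rw [reachable_iff_reflTransGen] at h
  induction h with
  | refl => exact Or.inl (Reachable.refl _)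
  | tail _ hbc ih =>
    rename_i b c
    rw [sup_adj, edge_adj] at hbc
    rcases hbc with hbc | ⟨⟨rfl, rfl⟩ | ⟨rfl, rfl⟩, -⟩
    · rcases ih with h1 | ⟨h1, h2⟩ | ⟨h1, h2⟩
      · exact Or.inl (h1.trans hbc.reachable)
      · exact Or.inr (Or.inl ⟨h1, h2.trans hbc.reachable⟩)
      · exact Or.inr (Or.inr ⟨h1, h2.trans hbc.reachable⟩)
    · rcases ih with h1 | ⟨h1, h2⟩ | ⟨h1, h2⟩
      · exact Or.inr (Or.inl ⟨h1, Reachable.refl _⟩)
      · exact Or.inr (Or.inl ⟨h1, Reachable.refl _⟩)
      · exact Or.inl h1
    · rcases ih with h1 | ⟨h1, h2⟩ | ⟨h1, h2⟩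
      · exact Or.inr (Or.inr ⟨h1, Reachable.refl _⟩)
      · exact Or.inl h1
      · exact Or.inr (Or.inr ⟨h1, Reachable.refl _⟩)

theorem bridge_sep {F : SimpleGraph V} (hF : F.IsAcyclic) {z a : V} (h : F.Adj z a) :
    ¬ (F \ edge z a).Reachable z a := by
  have h1 := isAcyclic_iff_forall_isBridge.mp hF (e := s(z, a)) h
  rw [isBridge_iff] at h1
  exact h1

/-- the first step of a path and the rest of it -/
theorem first_step {F : SimpleGraph V} {z x : V} (h : F.Reachable z x) (hne : z ≠ x) :
    ∃ b, F.Adj z b ∧ ∀ c, (F \ edge z c).Reachable b x := by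
  obtain ⟨p, hp⟩ := h.exists_isPath
  cases p with
  | nil => exact absurd rfl hne
  | cons hb p' =>
    rename_i b
    rw [Walk.cons_isPath_iff] at hp
    refine ⟨b, hb, fun c => ?_⟩
    have hE : ∀ e ∈ p'.edges, e ∈ (F \ edge z c).edgeSet := by
      intro e he
      have h1 : e ∈ F.edgeSet := Walk.edges_subset_edgeSet p' he
      induction e with
      | _ u v =>
        rw [mem_edgeSet] at h1 ⊢
        rw [sdiff_adj]
        refine ⟨h1, ?_⟩
        rw [edge_adj]
        rintro ⟨⟨rfl, rfl⟩ | ⟨rfl, rfl⟩, -⟩
        · exact hp.2 (Walk.fst_mem_support_of_mem_edges p' he)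
        · exact hp.2 (Walk.snd_mem_support_of_mem_edges p' he)
    exact ⟨p'.transfer _ hE⟩

variable [Fintype V]

theorem dg_le_of_subset {F : SimpleGraph V} {v : V} {S : Finset V}
    (h : ∀ w, F.Adj v w → w ∈ S) : dg F v ≤ S.card := by
  unfold dg
  apply Finset.card_le_card
  intro w hw
  exact h w (Finset.mem_filter.mp hw).2

omit [Fintype V] in
theorem adj_new {F : SimpleGraph V} {x z a v w : V}
    (h : ((F \ edge z a) ⊔ edge x z).Adj v w) :
    (F.Adj v w ∧ ¬ (v = z ∧ w = a) ∧ ¬ (v = a ∧ w = z)) ∨ (v = x ∧ w = z) ∨ (v = z ∧ w = x) := by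
  rw [sup_adj, sdiff_adj, edge_adj, edge_adj] at h
  rcases h with ⟨h1, h2⟩ | ⟨h1, _⟩
  · left
    refine ⟨h1, ?_, ?_⟩
    · rintro ⟨rfl, rfl⟩
      exact h2 ⟨Or.inl ⟨rfl, rfl⟩, h1.ne⟩
    · rintro ⟨rfl, rfl⟩
      exact h2 ⟨Or.inr ⟨rfl, rfl⟩, h1.ne⟩
  · right
    exact h1

theorem final {G F : SimpleGraph V} {x y z a : V} (hFG : F ≤ G) (hLF : IsLF F)
    (hx : dg F x ≤ 1) (hy : dg F y ≤ 1) (hG : G.Adj x z)
    (hFxz : ¬ F.Adj x z) (hza : F.Adj z a) (hxz : ¬ (F \ edge z a).Reachable x z)
    (hax : a ≠ x) (hyx : y ≠ x) (hyz : y ≠ z) :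
    (F \ edge z a) ⊔ edge x z ≤ G ∧ IsLF ((F \ edge z a) ⊔ edge x z) ∧
      ec ((F \ edge z a) ⊔ edge x z) = ec F ∧ dg ((F \ edge z a) ⊔ edge x z) y ≤ 1 ∧
      dg ((F \ edge z a) ⊔ edge x z) a ≤ 1 := by
  have hxz' : x ≠ z := hG.ne
  have hza' : z ≠ a := hza.ne
  -- degrees
  have hda : dg ((F \ edge z a) ⊔ edge x z) a ≤ 1 := by
    have h1 : dg ((F \ edge z a) ⊔ edge x z) a ≤
        ((Finset.univ.filter (fun w => F.Adj a w)).erase z).card := by
      apply dg_le_of_subset
      intro w hw
      rcases adj_new hw with ⟨h1, h2, h3⟩ | ⟨h1, h2⟩ | ⟨h1, h2⟩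
      · refine Finset.mem_erase.mpr ⟨fun h => h3 ⟨rfl, h⟩, ?_⟩
        exact Finset.mem_filter.mpr ⟨Finset.mem_univ _, h1⟩
      · exact absurd h1 hax
      · exact absurd h1.symm hza'
    have hm : z ∈ (Finset.univ.filter (fun w => F.Adj a w)) :=
      Finset.mem_filter.mpr ⟨Finset.mem_univ _, hza.symm⟩
    have h3 := Finset.card_erase_of_mem hm
    have h2 : (Finset.univ.filter (fun w => F.Adj a w)).card ≤ 2 := hLF.2 a
    omega
  have hdy : dg ((F \ edge z a) ⊔ edge x z) y ≤ 1 := by
    refine le_trans (dg_le_of_subset (S := Finset.univ.filter (fun w => F.Adj y w)) ?_) hy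
    intro w hw
    rcases adj_new hw with ⟨h1, h2, h3⟩ | ⟨h1, h2⟩ | ⟨h1, h2⟩
    · exact Finset.mem_filter.mpr ⟨Finset.mem_univ _, h1⟩
    · exact absurd h1 hyx
    · exact absurd h1 hyz
  have hdv : ∀ v, dg ((F \ edge z a) ⊔ edge x z) v ≤ 2 := by
    intro v
    by_cases hvz : v = z
    · subst hvz
      have h1 : dg ((F \ edge v a) ⊔ edge x v) v ≤
          (insert x ((Finset.univ.filter (fun w => F.Adj v w)).erase a)).card := by
        apply dg_le_of_subset
        intro w hw
        rcases adj_new hw with ⟨h1, h2, h3⟩ | ⟨h1, h2⟩ | ⟨h1, h2⟩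
        · refine Finset.mem_insert_of_mem (Finset.mem_erase.mpr ⟨fun h => h2 ⟨rfl, h⟩, ?_⟩)
          exact Finset.mem_filter.mpr ⟨Finset.mem_univ _, h1⟩
        · exact absurd h1.symm hxz'
        · rw [h2]
          exact Finset.mem_insert_self _ _
      have h2 := Finset.card_insert_le x ((Finset.univ.filter (fun w => F.Adj v w)).erase a)
      have hm : a ∈ (Finset.univ.filter (fun w => F.Adj v w)) :=
        Finset.mem_filter.mpr ⟨Finset.mem_univ _, hza⟩
      have h5 := Finset.card_erase_of_mem hm
      have h3 : (Finset.univ.filter (fun w => F.Adj v w)).card ≤ 2 := hLF.2 v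
      have h4 : 0 < (Finset.univ.filter (fun w => F.Adj v w)).card :=
        Finset.card_pos.mpr ⟨a, hm⟩
      omega
    · by_cases hvx : v = x
      · subst hvx
        have h1 : dg ((F \ edge z a) ⊔ edge v z) v ≤
            (insert z (Finset.univ.filter (fun w => F.Adj v w))).card := by
          apply dg_le_of_subset
          intro w hw
          rcases adj_new hw with ⟨h1, h2, h3⟩ | ⟨h1, h2⟩ | ⟨h1, h2⟩
          · exact Finset.mem_insert_of_mem (Finset.mem_filter.mpr ⟨Finset.mem_univ _, h1⟩)
          · rw [h2]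
            exact Finset.mem_insert_self _ _
          · exact absurd h1 hvz
        have h2 := Finset.card_insert_le z (Finset.univ.filter (fun w => F.Adj v w))
        unfold dg at hx
        omega
      · refine le_trans (dg_le_of_subset (S := Finset.univ.filter (fun w => F.Adj v w)) ?_)
          (hLF.2 v)
        intro w hw
        rcases adj_new hw with ⟨h1, h2, h3⟩ | ⟨h1, h2⟩ | ⟨h1, h2⟩
        · exact Finset.mem_filter.mpr ⟨Finset.mem_univ _, h1⟩
        · exact absurd h1 hvx
        · exact absurd h1 hvz
  refine ⟨?_, ⟨?_, hdv⟩, ?_, hdy, hda⟩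
  · refine sup_le (sdiff_le.trans hFG) ?_
    rw [edge_le_iff]
    exact Or.inr hG
  · exact IsAcyclic.sup_edge_of_not_reachable hxz (hLF.1.anti sdiff_le)
  · unfold ec
    have hset : ((F \ edge z a) ⊔ edge x z).edgeSet =
        insert s(x, z) (F.edgeSet \ {s(z, a)}) := by
      ext e
      induction e with
      | _ u v =>
        rw [mem_edgeSet, sup_adj, sdiff_adj, edge_adj, edge_adj, Set.mem_insert_iff,
          Set.mem_sdiff, mem_edgeSet, Set.mem_singleton_iff, Sym2.eq_iff, Sym2.eq_iff]
        constructor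
        · rintro (⟨h1, h2⟩ | ⟨h1, -⟩)
          · exact Or.inr ⟨h1, fun h => h2 ⟨h, h1.ne⟩⟩
          · exact Or.inl h1
        · rintro (h1 | ⟨h1, h2⟩)
          · right
            refine ⟨h1, ?_⟩
            rcases h1 with ⟨rfl, rfl⟩ | ⟨rfl, rfl⟩
            · exact hxz'
            · exact hxz'.symm
          · exact Or.inl ⟨h1, fun h => h2 h.1⟩
    rw [hset, Set.ncard_insert_of_notMem]
    · rw [Set.ncard_sdiff_singleton_add_one (show s(z, a) ∈ F.edgeSet from hza) (Set.toFinite _)]
    · rintro ⟨h1, -⟩
      exact hFxz h1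

theorem r1 : S_LAM → S_R1 := by
  intro hlam V _ G F x y z hFG hLF hec hxy hdx hdy hG hFxz
  have hxz' : x ≠ z := hG.ne
  have hyx : y ≠ x := fun h => hxy (h ▸ Reachable.refl _)
  by_cases hR : F.Reachable z x
  · -- `z` is in the component of `x`
    obtain ⟨a, hza, hpath⟩ := first_step hR hxz'.symm
    have h1 := hpath a
    have hbr := bridge_sep hLF.1 hza
    have hax : a ≠ x := by
      rintro rfl
      exact hFxz hza.symm
    have hxz : ¬ (F \ edge z a).Reachable x z := fun h => hbr (h1.trans h).symm
    have hyz : y ≠ z := by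
      rintro rfl
      exact hxy hR.symm
    obtain ⟨h2, h3, h4, h5, h6⟩ := final hFG hLF hdx hdy hG hFxz hza hxz hax hyx hyz
    refine ⟨a, hza, _, rfl, h2, h3, h4.trans hec, ?_, h5, h6⟩
    intro h
    have hm : ∀ {u v : V}, (F \ edge z a).Reachable u v → F.Reachable u v := fun h =>
      h.mono sdiff_le
    have h7 : F.Reachable y a := by
      rcases reach_sup_edge h with h | ⟨h8, h9⟩ | ⟨h8, h9⟩
      · exact hm h
      · exact absurd (hm h8).symm hxy
      · exact (hm h8).trans (hza.reachable)
    exact hxy ((h7.trans (hza.symm.reachable)).trans hR).symm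
  · -- `z` is in another component
    have hdz : 2 ≤ dg F z := by
      by_contra hcon
      have hnr : ¬ F.Reachable x z := fun h => hR h.symm
      have hle : F ⊔ edge x z ≤ G := sup_le hFG (by rw [edge_le_iff]; exact Or.inr hG)
      have hLF' : IsLF (F ⊔ edge x z) := by
        refine ⟨IsAcyclic.sup_edge_of_not_reachable hnr hLF.1, fun v => ?_⟩
        have hadj : ∀ w, (F ⊔ edge x z).Adj v w → F.Adj v w ∨ (v = x ∧ w = z) ∨
            (v = z ∧ w = x) := by
          intro w hw
          rw [sup_adj, edge_adj] at hw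
          rcases hw with h | h
          · exact Or.inl h
          · exact Or.inr h.1
        by_cases hvz : v = z
        · have h1 : dg (F ⊔ edge x z) v ≤
              (insert x (Finset.univ.filter (fun w => F.Adj v w))).card := by
            apply dg_le_of_subset
            intro w hw
            rcases hadj w hw with h | ⟨h, -⟩ | ⟨-, h⟩
            · exact Finset.mem_insert_of_mem (Finset.mem_filter.mpr ⟨Finset.mem_univ _, h⟩)
            · exact absurd (h.symm.trans hvz) hxz'
            · rw [h]; exact Finset.mem_insert_self _ _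
          have h2 := Finset.card_insert_le x (Finset.univ.filter (fun w => F.Adj v w))
          have h3 : dg F v ≤ 1 := by
            rw [hvz]; omega
          unfold dg at h3
          omega
        · by_cases hvx : v = x
          · have h1 : dg (F ⊔ edge x z) v ≤
                (insert z (Finset.univ.filter (fun w => F.Adj v w))).card := by
              apply dg_le_of_subset
              intro w hw
              rcases hadj w hw with h | ⟨-, h⟩ | ⟨h, -⟩
              · exact Finset.mem_insert_of_mem (Finset.mem_filter.mpr ⟨Finset.mem_univ _, h⟩)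
              · rw [h]; exact Finset.mem_insert_self _ _
              · exact absurd h hvz
            have h2 := Finset.card_insert_le z (Finset.univ.filter (fun w => F.Adj v w))
            have h3 : dg F v ≤ 1 := by
              rw [hvx]; exact hdx
            unfold dg at h3
            omega
          · refine le_trans (dg_le_of_subset (S := Finset.univ.filter (fun w => F.Adj v w)) ?_)
              (hLF.2 v)
            intro w hw
            rcases hadj w hw with h | ⟨h, -⟩ | ⟨h, -⟩
            · exact Finset.mem_filter.mpr ⟨Finset.mem_univ _, h⟩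
            · exact absurd h hvx
            · exact absurd h hvz
      have h1 := hlam.2.1 V G _ hle hLF'
      have h2 : ec (F ⊔ edge x z) = ec F + 1 := by
        unfold ec
        have hset : (F ⊔ edge x z).edgeSet = insert s(x, z) F.edgeSet := by
          ext e
          induction e with
          | _ u v =>
            rw [mem_edgeSet, sup_adj, edge_adj, Set.mem_insert_iff, mem_edgeSet, Sym2.eq_iff]
            constructor
            · rintro (h | ⟨h, -⟩)
              · exact Or.inr h
              · exact Or.inl h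
            · rintro (h | h)
              · right
                refine ⟨h, ?_⟩
                rcases h with ⟨rfl, rfl⟩ | ⟨rfl, rfl⟩
                · exact hxz'
                · exact hxz'.symm
              · exact Or.inl h
        rw [hset, Set.ncard_insert_of_notMem (show s(x, z) ∉ F.edgeSet from fun h => hFxz h)
          (Set.toFinite _)]
      omega
    have hyz : y ≠ z := by
      rintro rfl
      omega
    have key : ∃ a, F.Adj z a ∧ ¬ (F \ edge z a).Reachable y a := by
      by_cases hzy : F.Reachable z y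
      · obtain ⟨b, hzb, hb⟩ := first_step hzy hyz.symm
        have h1 : ∃ a ∈ (Finset.univ.filter (fun w => F.Adj z w)), a ≠ b := by
          apply Finset.exists_mem_ne
          unfold dg at hdz
          omega
        obtain ⟨a, ha, hab⟩ := h1
        have hza : F.Adj z a := (Finset.mem_filter.mp ha).2
        refine ⟨a, hza, fun h => ?_⟩
        have h2 : (F \ edge z a).Adj z b := by
          rw [sdiff_adj]
          refine ⟨hzb, ?_⟩
          rw [edge_adj]
          rintro ⟨⟨-, h3⟩ | ⟨h3, h4⟩, -⟩
          · exact hab h3.symm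
          · exact hza.ne h3
        exact bridge_sep hLF.1 hza ((h2.reachable.trans (hb a)).trans h)
      · have h1 : 0 < (Finset.univ.filter (fun w => F.Adj z w)).card := by
          unfold dg at hdz
          omega
        obtain ⟨a, ha⟩ := Finset.card_pos.mp h1
        have hza : F.Adj z a := (Finset.mem_filter.mp ha).2
        refine ⟨a, hza, fun h => hzy ?_⟩
        exact hza.reachable.trans (h.mono sdiff_le).symm
    obtain ⟨a, hza, hya⟩ := key
    have hax : a ≠ x := by
      rintro rfl
      exact hR hza.reachable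
    have hxz : ¬ (F \ edge z a).Reachable x z := fun h => hR (h.mono sdiff_le).symm
    obtain ⟨h2, h3, h4, h5, h6⟩ := final hFG hLF hdx hdy hG hFxz hza hxz hax hyx hyz
    refine ⟨a, hza, _, rfl, h2, h3, h4.trans hec, ?_, h5, h6⟩
    intro h
    rcases reach_sup_edge h with h | ⟨h8, h9⟩ | ⟨h8, h9⟩
    · exact hya h
    · exact bridge_sep hLF.1 hza h9
    · exact hR ((hza.reachable).trans (h9.mono sdiff_le).symm)

end Pool.Agent.W653.HC
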